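import Mathlib
import Pool.Agent.U737.DA.Low
import Pool.Agent.U737.DA.Up

/-!
# Shortest paths: formulas with determinant gates have size of the exact order `n ^ 2`

A directed graph has three layers of `n` vertices and the edge weights `A i k` (first to second
layer), `B k j` (second to third layer) and `C i j` (first to third layer), natural numbers. Is some
edge `i → j` longer than a path `i → k → j` (`shortcut`)? This is the decision version of the min-plus
product, which has the same exponent as APSP. The items of the input are the weights of all edges at
`i`, for each vertex `i` of the first layer, and the matrix `B`.

A formula (`Fml`) is built from real constants, arbitrary real functions of one item, and arbitrary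
real functions of `w` words with `n ^ c` values, where each word is an arbitrary function of one item,
by the gates

* `pos`: is the value positive? (`1` or `0`),
* `sym`: any fan-in, any real function of the number of positive inputs,
* `det`: the determinant of a real matrix of any order whose entries are formulas (sums and products
  are determinants of order two),
* `reg`: is the matrix over an arbitrary field `K`, of any order, whose entry `(a, b)` is `c' a b` or
  `c a b`, according to whether the formula `(a, b)` is positive or not, regular? (`1` or `0`).

The size is the number of the leaves which are not constants, plus the number of wires which lead to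
gates `sym`. So constants and the orders of the matrices are free. The formula accepts if its value is
positive.

(1) Random formulas of size at most `s` with error probability at most `1 / 3` on the graphs with
weights between `1` and `n + 1` need `n ^ 4 ≤ 2 * 10 ^ 7 * c w ^ 3 s ^ 2`.
(2) For every `W` there is a deterministic formula of size at most `3 n ^ 2` which is right for all
weights between `1` and `W`; each leaf reads one weight.

So for constant `w` and `c` the least size is of the exact order `n ^ 2`. With sums, products and sign
tests only, formulas and branching programs which test such formulas need the order `n ^ 3` (starting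
result `RealPrograms`).

Proof. (1) The weights at `i` can ask for `n ^ 2 log₂ n` bits which are encoded in the other weights
(helper697). If `r` leaves see them, the other parts of the formula enter the determinants only
through `O (r ^ 2)` numbers, so `2 ^ O (r ^ 2 log n)` functions of these weights arise when the other
items are fixed (`Pool.Agent.Y649.DG.bound`).
(2) With `X = n ^ 3 + 1` the trace of the product of the matrices `X ^ (-A i k)`, `X ^ (-B k j)`,
`X ^ (C i j)` is at least `X` if there is a shortcut, and at most `X - 1` if there is none. For small
positive `s` the determinant of `1 - s Y`, where `Y` is the product, is `1 - s tr Y` up to `s / 4`, and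
it is the determinant of a matrix of order `3 n` whose blocks are the three matrices.
-/

set_option autoImplicit false

namespace Pool.Agent.Results.MP_885423_lc.DeterminantGates

open Pool.Agent.TH697.Form (IsProb)
open Pool.Agent.TH697.Row (ApproximatesOn)
open Pool.Agent.TH697.Form.MinPlus (Item InRange shortcut)
open Pool.Agent.Y649.DG (Fml)

theorem result :
    (∀ n c w : ℕ, 16 ≤ n → 1 ≤ c → 1 ≤ w →
      ∀ (Ω : Type) [Fintype Ω] (μ : Ω → ℝ), IsProb μ →
        ∀ (s : ℕ) (F : Ω → Fml (Option (Fin n)) (Item n) w (n ^ c)),
          (∀ ω, (F ω).size ≤ s) →
          ApproximatesOn μ (fun ω => (F ω).accepts) (InRange n (n + 1)) (shortcut n) →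
          (n : ℝ) ^ 4 ≤ 2 * 10 ^ 7 * c * w ^ 3 * s ^ 2) ∧
    (∀ n w q W : ℕ, ∃ F : Fml (Option (Fin n)) (Item n) w q, F.size ≤ 3 * n ^ 2 ∧
      ∀ x, InRange n W x → F.accepts x = shortcut n x) :=
  ⟨fun _ _ _ hn hc hw _ _ μ hμ s F hs hF =>
    Pool.Agent.U737.DA.lower hn hc hw μ hμ s F hs hF, Pool.Agent.U737.DA.upper⟩

end Pool.Agent.Results.MP_885423_lc.DeterminantGates
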