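import Mathlib
import Pool.Agent.U286.LY.Apsp

/-!
# All-pairs shortest paths by circuits laid out in a lattice: volume `N ^ (2 + 2 / D - o(1))`

Circuits (`Net`) with words of `b` bits for the distances in a directed graph with `N` vertices: a
gate computes an arbitrary function of its wires, the inputs are the entries of the weight matrix
(one word for each), the outputs are words which represent the distances; the coding of weights and
distances by words is arbitrary. Inputs are not placed: an entry can be read everywhere, as often as
one likes; the number `r` of the wires from inputs to gates (the reads) is counted.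

The circuit is laid out in a host graph of cells (`Layout`): every gate (with the wires that leave
it, if one likes) occupies a nonempty connected region of cells, every cell belongs to at most `c`
regions, and if there is a wire between two gates then their regions meet or touch. In other words,
the graph of the gates is a minor of the strong product of a host graph with `v` cells and the
complete graph with `c` vertices. The regions may have any shape and size.

1. Let `0 < α < 1` and `θ < 1`. For random circuits that are laid out on `v` cells of host graphs in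
   which every set of `n` cells is divided by `K n ^ α` of its cells into parts with at most `θ n`
   cells (`HasSep`), and which compute all distances with probability more than `1/2`,
   `N ^ (4 - 2 α) ≤ M b c (log N) ^ 11 (r + N ^ 2) ^ (1 - α) (v + N ^ 2) ^ α`.
2. For the `D`-dimensional lattice (cubes that touch are adjacent) `α = 1 - 1 / D`. So circuits of
   bounded fan-in and load with words of `O (log N)` bits need volume at least
   `N ^ (2 + 2 / D - ε)`: a three-dimensional circuit has volume at least `N ^ (8/3 - ε)`.

The hard graphs, and the bound for the probability that many pairs are disconnected if few entries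
are given, are those of the starting results `SpaceBoundedAPSP` and `TreewidthTimesReads`, and the
reduction from circuits that are divided into pieces (`apsp_det3`) is that of `CrossingNumber`
(planar circuits). The treewidth of a layout is `O (c v ^ α)`, and from `TreewidthTimesReads` one
gets only `r v ^ α ≥ N ^ (4 - o(1))`, so `v ≥ N ^ (12/5 - o(1))` for `D = 3`.

What is new is the geometric part: the separator theorem for arbitrary finite sets of points of the
lattice (by a hyperplane, `hasSep_lattice`), the passage to arbitrary weights
(`HasSep.weighted`), and the division theorem (`division`, `exists_pieces`): for a host graph with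
separators of size `K n ^ α` every layout, with reads as weights, is divided into
`O (v / s + r / w + 1)` pieces with at most `w` reads and with `O (c s ^ α)` boundary gates
(for planar graphs this is Frederickson's `r`-division).
-/

set_option autoImplicit false

namespace Pool.Agent.Results.MP_885423_lc.LatticeLayouts

open Pool.Agent.Y631.Tr Pool.Agent.U286.LY

/-- The total weight of the walk with the given list of vertices. -/
def walkWeight {N : ℕ} (w : Fin N × Fin N → ℕ∞) : List (Fin N) → ℕ∞
  | [] => 0
  | [_] => 0
  | a :: b :: l => w (a, b) + walkWeight w (b :: l)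

/-- The distance from `u` to `v`: the minimal total weight of a walk from `u` to `v`. -/
noncomputable def dist {N : ℕ} (w : Fin N × Fin N → ℕ∞) (u v : Fin N) : ℕ∞ :=
  ⨅ l : {l : List (Fin N) // l.head? = some u ∧ l.getLast? = some v}, walkWeight w l.1

/-- The circuit computes all distances of the graph with the weights `w`; the weights are encoded
by `inp`, and the outputs are decoded by `dec`. -/
def Right {α : Type} {N : ℕ} (C : Net (Fin N × Fin N) (Fin N × Fin N) α) (inp : ℕ∞ → α)
    (dec : α → ℕ∞) (w : Fin N × Fin N → ℕ∞) : Prop :=
  ∃ y, C.Computes (fun p => inp (w p)) y ∧ ∀ o, dec (y o) = dist w o.1 o.2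

theorem walkWeight_eq {N : ℕ} (w : Fin N × Fin N → ℕ∞) :
    ∀ l, Pool.Agent.H537R2.Apsp.walkWeight w l = walkWeight w l
  | [] => rfl
  | [_] => rfl
  | a :: b :: l => by
    rw [Pool.Agent.H537R2.Apsp.walkWeight, walkWeight, walkWeight_eq w (b :: l)]

theorem right_iff {α : Type} {N : ℕ} (C : Net (Fin N × Fin N) (Fin N × Fin N) α) (inp : ℕ∞ → α)
    (dec : α → ℕ∞) (w : Fin N × Fin N → ℕ∞) : Right C inp dec w ↔ NetDist C inp dec w := by
  have h : ∀ o, dist w o.1 o.2 = Pool.Agent.W896.MO.dists w o := by
    intro o
    unfold Pool.Agent.W896.MO.dists Pool.Agent.H537R2.Apsp.dist dist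
    congr 1
    funext l
    exact (walkWeight_eq w l.1).symm
  unfold Right NetDist
  simp only [h]

/-- (1) Let `0 ≤ K`, `0 < α < 1` and `0 ≤ θ < 1`. There is `M` such that for all large `N`, all
`b ≥ 1`, `c`, `r` and `v`: let `C i`, for a uniformly random `i : R`, be circuits with at most
`2 ^ b` possible words and at most `r` reads, which are laid out, with load at most `c`, on at most
`v` cells of host graphs with separators of size `K n ^ α`. If for every directed graph with `N`
vertices all of whose edges have weight `1` (`⊤`: no edge) the random circuit computes all distances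
with probability more than `1/2`, then
`N ^ (4 - 2 α) ≤ M b c (log₂ N) ^ 11 (r + N ^ 2) ^ (1 - α) (v + N ^ 2) ^ α`.

(2) Let `D ≥ 2`, `c₀` and `ε > 0`. For all large `N`: if a circuit of fan-in at most `c₀` with at
most `N ^ c₀` possible words computes all distances for these graphs and is laid out, with load at
most `c₀`, on a finite set `J` of cells of the `D`-dimensional lattice, then
`N ^ (2 + 2 / D - ε) ≤ |J|`. -/
theorem result :
    (∀ K α θ : ℝ, 0 ≤ K → 0 < α → α < 1 → 0 ≤ θ → θ < 1 → ∃ M : ℝ, ∀ᶠ N : ℕ in Filter.atTop,
      ∀ (b c r v : ℕ), 1 ≤ b → ∀ (R : Type) [Fintype R] (A : R → Type) [∀ i, Fintype (A i)]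
        (C : (i : R) → Net (Fin N × Fin N) (Fin N × Fin N) (A i)) (inp : (i : R) → ℕ∞ → A i)
        (dec : (i : R) → A i → ℕ∞),
      (∀ i, Fintype.card (A i) ≤ 2 ^ b ∧ (C i).reads ≤ r ∧ LaidOut (C i).Joined K α θ v c) →
      (∀ w : Fin N × Fin N → ℕ∞, (∀ p, w p = 1 ∨ w p = ⊤) →
        Nat.card R < 2 * Nat.card {i : R // Right (C i) (inp i) (dec i) w}) →
      (N : ℝ) ^ (4 - 2 * α) ≤ M * (b * c * ((Nat.log 2 N : ℝ)) ^ 11) *
        (((r : ℝ) + N ^ 2) ^ (1 - α) * ((v : ℝ) + N ^ 2) ^ α)) ∧
    (∀ (D c₀ : ℕ) (ε : ℝ), 2 ≤ D → 0 < ε → ∀ᶠ N : ℕ in Filter.atTop,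
      ∀ (A : Type) [Fintype A] (C : Net (Fin N × Fin N) (Fin N × Fin N) A) (inp : ℕ∞ → A)
        (dec : A → ℕ∞) (J : Finset (Fin D → ℤ)) (reg : Fin C.size → Finset (Fin D → ℤ)),
      Fintype.card A ≤ N ^ c₀ → (∀ g, C.arity g ≤ c₀) →
      Layout C.Joined (lattice D) J c₀ reg →
      (∀ w : Fin N × Fin N → ℕ∞, (∀ p, w p = 1 ∨ w p = ⊤) → Right C inp dec w) →
      (N : ℝ) ^ (2 + 2 / (D : ℝ) - ε) ≤ J.card) := by
  simp only [right_iff]
  refine ⟨?_, apsp_lattice⟩
  intro K α θ hK hα hα1 hθ0 hθ
  obtain ⟨M, -, hM⟩ := apsp_hosts hK hα hα1 hθ0 hθ
  exact ⟨M, hM⟩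

end Pool.Agent.Results.MP_885423_lc.LatticeLayouts
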