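import Mathlib
import Pool.Agent.U514.MU.ApspCor

/-!
# All-pairs shortest paths: fast circuits contain every graph as a minor

Circuits (`Net`) with words of `b` bits for the distances in a directed graph with `N` vertices: a
gate computes an arbitrary function of its wires, the inputs are the entries of the weight matrix
(one word for each), the outputs are words which represent the distances; the coding of weights and
distances by words is arbitrary. The graph of the gates (`gateGraph`) has the gates as vertices and
the wires between gates as edges; the inputs are deleted, so an entry can be read everywhere.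

`HasMinor G H d`: there are pairwise disjoint sets of vertices of `G`, one for each vertex of `H`,
each with a centre from which it can be reached by walks of length at most `d` inside of the set,
and an edge of `G` between the sets of adjacent vertices of `H`. `Universal G M d`: this holds for
EVERY graph `H` with at most `M` vertices and at most `M` edges.

1. Random circuits with at most `r` reads and `g` gates which compute all distances with probability
   more than `1/2`, for each directed graph all of whose edges have weight one, satisfy
   `N ^ 6 < c M b ^ 2 (r + N ^ 2) (g + N ^ 2) (log N) ^ 21`, unless the graph of the gates of one of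
   them is universal for `M` edges (with radius about `√(g log g / M)`).
2. So a circuit with words of `O (log N)` bits, bounded fan-in and `N ^ (3 - δ)` gates contains every
   graph with at most `N ^ (2 δ - ε)` vertices and edges as a minor, with branch sets of radius
   `N ^ (3 (1 - δ) / 2 + ε)`. For instance (`δ` small) circuits whose graphs of gates do not contain
   one fixed graph as a minor, such as all graphs of bounded genus, need `N ^ (3 - ε)` gates; and
   (`δ = 1`) circuits with `N ^ 2` gates contain every graph with `N ^ (2 - ε)` edges as a minor with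
   branch sets of radius `N ^ ε`: as they have only `O (N ^ 2)` wires, this is optimal up to `N ^ ε`.

The hard graphs, and the bound for the probability that many pairs are disconnected if few entries
are given, are those of the starting results `SpaceBoundedAPSP`, `StackTradeoff` and
`TreewidthTimesReads`. New are

* `Pool.Agent.U514.MU.exists_sep`: for every graph `H`, a graph `G` with at most `2 ^ t` vertices has
  balanced separators of `|U| / ℓ + |V(H)| + 4 ℓ t |E(H)|` vertices of all its sets `U` of vertices,
  unless it contains `H` as a minor with branch sets of radius at most `2 ℓ t`. For complete graphs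
  `H` this is the theorem of Plotkin, Rao and Smith (1994); here the branch sets are joined by short
  paths only for the edges of `H`, so that the bound is linear in `|E(H)|` for all `H`;
* `Pool.Agent.U514.MU.division`: graphs with separators of size `√(A |U|)` are divided into
  `O (A |V| / q ^ 2 + a(V) / w + 1)` pieces of weight at most `w` with at most `5000 q` boundary
  vertices.
-/

set_option autoImplicit false

namespace Pool.Agent.Results.MP_885423_lc.MinorUniversality

open Pool.Agent.Y631.Tr Pool.Agent.U514.MU
open Pool.Agent.U514.PD (gateGraph)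

/-- The total weight of the walk with the given list of vertices. -/
def walkWeight {N : ℕ} (w : Fin N × Fin N → ℕ∞) : List (Fin N) → ℕ∞
  | [] => 0
  | [_] => 0
  | a :: b :: l => w (a, b) + walkWeight w (b :: l)

/-- The distance from `u` to `v`: the minimal total weight of a walk from `u` to `v`. -/
noncomputable def dist {N : ℕ} (w : Fin N × Fin N → ℕ∞) (u v : Fin N) : ℕ∞ :=
  ⨅ l : {l : List (Fin N) // l.head? = some u ∧ l.getLast? = some v}, walkWeight w l.1

/-- The circuit computes all distances of the graph with the weights `w`; the weights are encoded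
by `inp`, and the outputs are decoded by `dec`. -/
def Right {α : Type} {N : ℕ} (C : Net (Fin N × Fin N) (Fin N × Fin N) α) (inp : ℕ∞ → α)
    (dec : α → ℕ∞) (w : Fin N × Fin N → ℕ∞) : Prop :=
  ∃ y, C.Computes (fun p => inp (w p)) y ∧ ∀ o, dec (y o) = dist w o.1 o.2

theorem walkWeight_eq {N : ℕ} (w : Fin N × Fin N → ℕ∞) :
    ∀ l, Pool.Agent.H537R2.Apsp.walkWeight w l = walkWeight w l
  | [] => rfl
  | [_] => rfl
  | a :: b :: l => by
    rw [Pool.Agent.H537R2.Apsp.walkWeight, walkWeight, walkWeight_eq w (b :: l)]

theorem right_iff {α : Type} {N : ℕ} (C : Net (Fin N × Fin N) (Fin N × Fin N) α) (inp : ℕ∞ → α)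
    (dec : α → ℕ∞) (w : Fin N × Fin N → ℕ∞) : Right C inp dec w ↔ NetDist C inp dec w := by
  have h : ∀ o, dist w o.1 o.2 = Pool.Agent.W896.MO.dists w o := by
    intro o
    unfold Pool.Agent.W896.MO.dists Pool.Agent.H537R2.Apsp.dist dist
    congr 1
    funext l
    exact (walkWeight_eq w l.1).symm
  unfold Right NetDist
  simp only [h]

/-- (1) There is a constant `c ≥ 1` such that for all large `N`, all `b ≥ 1`, `M ≥ 1`, `r`, `g` and
`d` with `4 (⌊log₂ g⌋ + 1) g ≤ M d ^ 2` and `c M b ^ 2 (r + N ^ 2) (g + N ^ 2) ⌊log₂ N⌋ ^ 21 ≤ N ^ 6`:
let `C i`, for a uniformly random `i : R`, be circuits with at most `2 ^ b` possible words, at most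
`r` reads and at most `g` gates. If for every directed graph with `N` vertices all of whose edges
have weight `1` (`⊤`: no edge) the random circuit computes all distances with probability more than
`1/2`, then the graph of the gates of one of the circuits contains every graph `H` with at most `M`
vertices and at most `M` edges as a minor with branch sets of radius at most `d`.

(2) Let `c₀` and `0 < ε ≤ δ ≤ 1`. For all large `N`: if a circuit of fan-in at most `c₀` with at most
`N ^ c₀` possible words and at most `N ^ (3 - δ)` gates computes all distances for these graphs, then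
the graph of its gates contains every graph `H` with at most `N ^ (2 δ - ε)` vertices and at most
`N ^ (2 δ - ε)` edges as a minor with branch sets of radius at most `N ^ (3 (1 - δ) / 2 + ε)`. -/
theorem result :
    (∃ c : ℕ, 0 < c ∧ ∀ᶠ N : ℕ in Filter.atTop, ∀ (b r g M d : ℕ), 1 ≤ b → 1 ≤ M →
      4 * (Nat.log 2 g + 1) * g ≤ M * d ^ 2 →
      c * (M * b ^ 2 * ((r + N ^ 2) * (g + N ^ 2)) * (Nat.log 2 N) ^ 21) ≤ N ^ 6 →
      ∀ (R : Type) [Fintype R] (α : R → Type) [∀ i, Fintype (α i)]
        (C : (i : R) → Net (Fin N × Fin N) (Fin N × Fin N) (α i)) (inp : (i : R) → ℕ∞ → α i)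
        (dec : (i : R) → α i → ℕ∞),
      (∀ i, Fintype.card (α i) ≤ 2 ^ b ∧ (C i).reads ≤ r ∧ (C i).size ≤ g) →
      (∀ w : Fin N × Fin N → ℕ∞, (∀ p, w p = 1 ∨ w p = ⊤) →
        Nat.card R < 2 * Nat.card {i : R // Right (C i) (inp i) (dec i) w}) →
      ∃ i, Universal (gateGraph (C i)) M d) ∧
    (∀ (c₀ : ℕ) (δ ε : ℝ), 0 < ε → ε ≤ δ → δ ≤ 1 → ∀ᶠ N : ℕ in Filter.atTop,
      ∀ (α : Type) [Fintype α] (C : Net (Fin N × Fin N) (Fin N × Fin N) α) (inp : ℕ∞ → α)
        (dec : α → ℕ∞), Fintype.card α ≤ N ^ c₀ → (∀ g, C.arity g ≤ c₀) →
      (∀ w : Fin N × Fin N → ℕ∞, (∀ p, w p = 1 ∨ w p = ⊤) → Right C inp dec w) →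
      (C.size : ℝ) ≤ (N : ℝ) ^ (3 - δ) →
      ∀ (W : Type) [Fintype W] (H : SimpleGraph W),
        (Fintype.card W : ℝ) ≤ (N : ℝ) ^ (2 * δ - ε) →
        (H.edgeSet.ncard : ℝ) ≤ (N : ℝ) ^ (2 * δ - ε) →
        HasMinor (gateGraph C) H ⌊(N : ℝ) ^ (3 * (1 - δ) / 2 + ε)⌋₊) := by
  simp only [right_iff]
  exact ⟨apsp_universal, apsp_minors⟩

end Pool.Agent.Results.MP_885423_lc.MinorUniversality
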