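import Mathlib
import Pool.Agent.U514.PD.ApspCor
import Pool.Agent.U514.TR.TwoStep

/-!
# All-pairs shortest paths by planar circuits: all distances, and the first step

Circuits (`Net`) with words of `b` bits for the distances in a directed graph with `N` vertices: a
gate computes an arbitrary function of its wires, the inputs are the entries of the weight matrix
(one word for each), the outputs are words which represent the distances; the coding of weights and
distances by words is arbitrary. Three numbers count: the number `r` of the wires from inputs to
gates (the reads), the number of the gates, and the number `k` of crossings in a drawing of the graph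
of the gates in the plane (`CrossingsLE`; its edges are the wires between gates, the inputs are
deleted, so an entry can be read at any place of the plane, as often as one likes).

1. For random circuits which compute all distances with probability more than `1/2`, for each
   directed graph all of whose edges have weight one,
   `N ^ 6 < c b ^ 2 (r + N ^ 2) (gates + crossings + N ^ 2) (log N) ^ 20`.
2. So circuits with words of `O (log N)` bits and bounded fan-in satisfy
   `gates + crossings ≥ N ^ (3 - ε)`: the APSP hypothesis holds for planar circuits.
3. If such a circuit has at most `N ^ (3 - δ)` gates then each of its drawings has at least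
   `N ^ (3 + δ - ε)` crossings: the circuits of a truly subcubic algorithm are far from planar.
4. On the other hand planar circuits are not too weak to use cancellation: there are planar circuits
   of fan-in two with `O (N ^ 2.996)` gates and less than `2 N + 3` words which find the pairs of
   vertices that are joined by a walk with two edges (the first step of the repeated squaring, which
   on a random access machine has the same exponent as the whole problem for Boolean reachability).
   So in the plane all distances, even of graphs with unit weights, are strictly harder than matrix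
   products.

The circuits of 4 compute the square of the adjacency matrix over a field with `p` elements,
`N < p ≤ 2 N + 2`, by the planar arithmetic circuits of `MP_e72dc0_lc.PlanarCircuits` (trilinear
aggregation in a grid of tiles which contain planar crossings). The hard graphs, and the bound for the probability that many pairs are disconnected if few entries
are given, are those of the starting results `SpaceBoundedAPSP`, `StackTradeoff` and
`TreewidthTimesReads`. The last one is about the treewidth `t` of the graph of the gates
(`(r + N ^ 2) (b (t + 1) + log N) > N ^ 4 / (c (log N) ^ 10)`); as planar graphs with `s` vertices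
can have treewidth `√s`, it gives only `r √s ≥ N ^ (4 - o(1))`, so `N ^ (8/3 - o(1))` for planar
circuits.

What is new is a theorem on drawn graphs (`Pool.Agent.U514.PD.division`): a graph with `s` vertices,
drawn in the plane with `k` crossings, and with weights `a` of the vertices, is divided into
`O ((s + k) / q ^ 2 + a(V) / w + 1)` pieces of weight at most `w` and with at most `5000 q` boundary
vertices (for planar graphs this is Frederickson's `r`-division). The proof uses the weighted
separator theorem of the library for graphs without a `K₅` model (`Helper770.Sep.separator`) on the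
planarised graph, with costs for the crossing points, and a recursion with the potential
`inner vertices and crossings / q ^ 2 + weight / w + boundary / (5000 q)`. Each piece reads few
entries and has few boundary words, so it cannot know many of the pairs that are not connected.
-/

set_option autoImplicit false

namespace Pool.Agent.Results.MP_885423_lc.PlanarDistances

open Pool.Agent.Y631.Tr Pool.Agent.U514.PD

/-- The total weight of the walk with the given list of vertices. -/
def walkWeight {N : ℕ} (w : Fin N × Fin N → ℕ∞) : List (Fin N) → ℕ∞
  | [] => 0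
  | [_] => 0
  | a :: b :: l => w (a, b) + walkWeight w (b :: l)

/-- The distance from `u` to `v`: the minimal total weight of a walk from `u` to `v`. -/
noncomputable def dist {N : ℕ} (w : Fin N × Fin N → ℕ∞) (u v : Fin N) : ℕ∞ :=
  ⨅ l : {l : List (Fin N) // l.head? = some u ∧ l.getLast? = some v}, walkWeight w l.1

/-- The circuit computes all distances of the graph with the weights `w`; the weights are encoded
by `inp`, and the outputs are decoded by `dec`. -/
def Right {α : Type} {N : ℕ} (C : Net (Fin N × Fin N) (Fin N × Fin N) α) (inp : ℕ∞ → α)
    (dec : α → ℕ∞) (w : Fin N × Fin N → ℕ∞) : Prop :=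
  ∃ y, C.Computes (fun p => inp (w p)) y ∧ ∀ o, dec (y o) = dist w o.1 o.2

/-- The circuit finds the pairs of vertices which are joined by a walk with two edges; the weights
are encoded by `inp`, and the outputs are decoded by `dec`. -/
def RightTwo {α : Type} {N : ℕ} (C : Net (Fin N × Fin N) (Fin N × Fin N) α) (inp : ℕ∞ → α)
    (dec : α → Prop) (w : Fin N × Fin N → ℕ∞) : Prop :=
  ∃ y, C.Computes (fun p => inp (w p)) y ∧
    ∀ o, dec (y o) ↔ ∃ z, w (o.1, z) = 1 ∧ w (z, o.2) = 1

theorem walkWeight_eq {N : ℕ} (w : Fin N × Fin N → ℕ∞) :
    ∀ l, Pool.Agent.H537R2.Apsp.walkWeight w l = walkWeight w l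
  | [] => rfl
  | [_] => rfl
  | a :: b :: l => by
    rw [Pool.Agent.H537R2.Apsp.walkWeight, walkWeight, walkWeight_eq w (b :: l)]

theorem right_iff {α : Type} {N : ℕ} (C : Net (Fin N × Fin N) (Fin N × Fin N) α) (inp : ℕ∞ → α)
    (dec : α → ℕ∞) (w : Fin N × Fin N → ℕ∞) : Right C inp dec w ↔ NetDist C inp dec w := by
  have h : ∀ o, dist w o.1 o.2 = Pool.Agent.W896.MO.dists w o := by
    intro o
    unfold Pool.Agent.W896.MO.dists Pool.Agent.H537R2.Apsp.dist dist
    congr 1
    funext l
    exact (walkWeight_eq w l.1).symm
  unfold Right NetDist
  simp only [h]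

/-- (1) There is a constant `c` such that for all large `N`, all `b ≥ 1`, `r` and `g`: let `C i`, for
a uniformly random `i : R`, be circuits with at most `2 ^ b` possible words and at most `r` reads,
such that the graph of the gates can be drawn in the plane with `k` crossings where
`gates + k ≤ g`. If for every directed graph with `N` vertices all of whose edges have weight `1`
(`⊤`: no edge) the random circuit computes all distances with probability more than `1/2`, then
`N ^ 6 < c b ^ 2 (r + N ^ 2) (g + N ^ 2) (log₂ N) ^ 20`.

(2) Let `c₀` and `ε > 0`. For all large `N`: every circuit of fan-in at most `c₀` with at most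
`N ^ c₀` possible words, drawn with at most `k` crossings, which computes all distances for these
graphs satisfies `N ^ (3 - ε) ≤ gates + k`.

(3) Let `c₀` and `0 < ε ≤ δ ≤ 1`. For all large `N`: if such a circuit has at most `N ^ (3 - δ)`
gates then `k ≥ N ^ (3 + δ - ε)`.

(4) There is a constant `D` such that for all `N` some circuit of fan-in at most `2` with at most
`2 N + 2` possible words and at most `D N ^ 2.996` gates, drawn without crossings, finds for all these
graphs the pairs of vertices which are joined by a walk with two edges. -/
theorem result :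
    (∃ c : ℕ, ∀ᶠ N : ℕ in Filter.atTop, ∀ (b r g : ℕ), 1 ≤ b →
      ∀ (R : Type) [Fintype R] (α : R → Type) [∀ i, Fintype (α i)]
        (C : (i : R) → Net (Fin N × Fin N) (Fin N × Fin N) (α i)) (inp : (i : R) → ℕ∞ → α i)
        (dec : (i : R) → α i → ℕ∞),
      (∀ i, Fintype.card (α i) ≤ 2 ^ b ∧ (C i).reads ≤ r ∧
        ∃ k, CrossingsLE (C i) k ∧ (C i).size + k ≤ g) →
      (∀ w : Fin N × Fin N → ℕ∞, (∀ p, w p = 1 ∨ w p = ⊤) →
        Nat.card R < 2 * Nat.card {i : R // Right (C i) (inp i) (dec i) w}) →
      N ^ 6 < c * (b ^ 2 * ((r + N ^ 2) * (g + N ^ 2)) * (Nat.log 2 N) ^ 20)) ∧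
    (∀ (c₀ : ℕ) (ε : ℝ), 0 < ε → ∀ᶠ N : ℕ in Filter.atTop,
      ∀ (α : Type) [Fintype α] (C : Net (Fin N × Fin N) (Fin N × Fin N) α) (inp : ℕ∞ → α)
        (dec : α → ℕ∞) (k : ℕ), Fintype.card α ≤ N ^ c₀ → (∀ g, C.arity g ≤ c₀) →
      CrossingsLE C k →
      (∀ w : Fin N × Fin N → ℕ∞, (∀ p, w p = 1 ∨ w p = ⊤) → Right C inp dec w) →
      (N : ℝ) ^ (3 - ε) ≤ C.size + k) ∧
    (∀ (c₀ : ℕ) (δ ε : ℝ), 0 < δ → δ ≤ 1 → 0 < ε → ε ≤ δ → ∀ᶠ N : ℕ in Filter.atTop,
      ∀ (α : Type) [Fintype α] (C : Net (Fin N × Fin N) (Fin N × Fin N) α) (inp : ℕ∞ → α)
        (dec : α → ℕ∞) (k : ℕ), Fintype.card α ≤ N ^ c₀ → (∀ g, C.arity g ≤ c₀) →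
      CrossingsLE C k →
      (∀ w : Fin N × Fin N → ℕ∞, (∀ p, w p = 1 ∨ w p = ⊤) → Right C inp dec w) →
      (C.size : ℝ) ≤ (N : ℝ) ^ (3 - δ) → (N : ℝ) ^ (3 + δ - ε) ≤ k) ∧
    ∃ D : ℝ, ∀ N : ℕ, ∃ p : ℕ, p ≤ 2 * N + 2 ∧
      ∃ C : Net (Fin N × Fin N) (Fin N × Fin N) (Fin p), (∀ g, C.arity g ≤ 2) ∧
        CrossingsLE C 0 ∧ (C.size : ℝ) ≤ D * (N : ℝ) ^ (2.996 : ℝ) ∧
        ∃ (inp : ℕ∞ → Fin p) (dec : Fin p → Prop), ∀ w : Fin N × Fin N → ℕ∞,
          (∀ q, w q = 1 ∨ w q = ⊤) → RightTwo C inp dec w := by
  simp only [right_iff]
  exact ⟨apsp_crossings, apsp_planar, apsp_subcubic, Pool.Agent.U514.TR.two_step⟩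

end Pool.Agent.Results.MP_885423_lc.PlanarDistances
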